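import Pool.Agent.T6.H61.QN3.KI
import Pool.Agent.T6.H50.QN.BES

/-! Project QN, third wave, module KER: the Bessel half and the induction. -/

set_option autoImplicit false

open MeasureTheory Real Filter Topology Set

namespace Pool.Agent.T6.H61.QN3

open H50.QN

/-- the left hand side -/
noncomputable def ff (n : ℕ) (z : ℝ) : ℝ := 2 * z ^ (2 * n + 1) * G (2 * n + 1) z ^ 2 / kap n ^ 2

theorem kap_pos (n : ℕ) : 0 < kap n := by
  unfold kap
  positivity

theorem kap_succ (n : ℕ) : kap (n + 1) = kap n * (2 * n + 2) := by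
  unfold kap
  rw [Nat.factorial_succ]
  push_cast
  ring

theorem G_one' {z : ℝ} (hz : 0 < z) : G 1 z = 2 * (sin z / z) := by
  unfold G
  have h1 : ∀ t : ℝ, (1 - t ^ 2) ^ ((((1 : ℕ) : ℝ) - 1) / 2) * cos (z * t) = cos (z * t) := by
    intro t
    norm_num
  simp_rw [h1]
  rw [intervalIntegral.integral_comp_mul_left (fun x => cos x) hz.ne', integral_cos]
  simp only [mul_one, mul_neg, sin_neg, smul_eq_mul]
  field_simp
  ring

theorem G_three {z : ℝ} (hz : 0 < z) : G 3 z = 4 * vv z / z ^ 2 := by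
  obtain ⟨H, h1, h2, -⟩ := bes 1 le_rfl
  have h3 : HasDerivAt (fun z : ℝ => 2 * (sin z / z)) (2 * ((cos z * z - sin z * 1) / z ^ 2)) z :=
    ((hasDerivAt_sin z).div (hasDerivAt_id z) hz.ne').const_mul 2
  have h4 : HasDerivAt (G 1) (2 * ((cos z * z - sin z * 1) / z ^ 2)) z := by
    refine h3.congr_of_eventuallyEq ?_
    filter_upwards [Ioi_mem_nhds hz] with y hy
    exact G_one' hy
  have h5 := (h1 z).unique h4
  have h6 := h2 z
  rw [h5] at h6
  norm_num at h6
  unfold vv
  field_simp at h6 ⊢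
  linarith

theorem step (n : ℕ) (h0 : ∀ z, 0 < z → ff n z = KK n z)
    (h1 : ∀ z, 0 < z → ff (n + 1) z = KK (n + 1) z) :
    ∀ z, 0 < z → ff (n + 2) z = KK (n + 2) z := by
  obtain ⟨H0, a1, a2, a3, -⟩ := bes (2 * n + 1) (by omega)
  obtain ⟨H, b1, b2, b3, -⟩ := bes (2 * n + 3) (by omega)
  have hk := kap_succ n
  have hk1 := kap_succ (n + 1)
  have hk0 := kap_pos n
  have hkk := kap_pos (n + 1)
  obtain ⟨g, hg⟩ : ∃ g : ℝ → ℝ, g = G (2 * n + 3) := ⟨_, rfl⟩
  have hff1 : ∀ y, ff (n + 1) y = 2 / kap (n + 1) ^ 2 * (y ^ (2 * n + 3) * g y ^ 2) := by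
    intro y
    have e : 2 * (n + 1) + 1 = 2 * n + 3 := by ring
    unfold ff
    rw [e, hg]
    ring
  rw [← hg] at b1
  -- first derivative
  have d1 : ∀ y, HasDerivAt (ff (n + 1)) (2 / kap (n + 1) ^ 2 *
      ((2 * n + 3) * y ^ (2 * n + 2) * g y ^ 2 + y ^ (2 * n + 3) * (2 * g y * H y))) y := by
    intro y
    have e : ff (n + 1) = fun y => 2 / kap (n + 1) ^ 2 * (y ^ (2 * n + 3) * g y ^ 2) := by
      funext y; exact hff1 y
    rw [e]
    refine (((hasDerivAt_pow (2 * n + 3) y).mul ((b1 y).pow 2)).const_mul _).congr_deriv ?_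
    have e2 : 2 * n + 3 - 1 = 2 * n + 2 := by omega
    rw [e2]
    push_cast
    simp only [pow_one, Pi.pow_apply, Pi.mul_apply]
  have c1 : ∀ y, 0 < y → KK1 (n + 1) y = 2 / kap (n + 1) ^ 2 *
      ((2 * n + 3) * y ^ (2 * n + 2) * g y ^ 2 + y ^ (2 * n + 3) * (2 * g y * H y)) := by
    intro y hy
    refine (hasDeriv1 (n + 1) y).unique ((d1 y).congr_of_eventuallyEq ?_)
    filter_upwards [Ioi_mem_nhds hy] with x hx
    exact (h1 x hx).symm
  intro z hz
  have c2 : KK2 (n + 1) z = 2 / kap (n + 1) ^ 2 *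
      (((2 * n + 3) * (2 * n + 2) * z ^ (2 * n + 1) * g z ^ 2 +
        (2 * n + 3) * z ^ (2 * n + 2) * (2 * g z * H z)) +
      ((2 * n + 3) * z ^ (2 * n + 2) * (2 * g z * H z) +
        z ^ (2 * n + 3) * (2 * H z * H z + 2 * g z * (-g z - (2 * n + 4) / z * H z)))) := by
    have b3' : HasDerivAt H (-g z - (2 * n + 4) / z * H z) z := by
      refine (b3 z hz).congr_deriv ?_
      rw [hg]
      push_cast
      ring
    have e2 : 2 * n + 3 - 1 = 2 * n + 2 := by omega
    have e3 : 2 * n + 2 - 1 = 2 * n + 1 := by omega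
    have d2 : HasDerivAt (fun y => 2 / kap (n + 1) ^ 2 *
      ((2 * n + 3) * y ^ (2 * n + 2) * g y ^ 2 + y ^ (2 * n + 3) * (2 * g y * H y)))
      (2 / kap (n + 1) ^ 2 *
      (((2 * n + 3) * (2 * n + 2) * z ^ (2 * n + 1) * g z ^ 2 +
        (2 * n + 3) * z ^ (2 * n + 2) * (2 * g z * H z)) +
      ((2 * n + 3) * z ^ (2 * n + 2) * (2 * g z * H z) +
        z ^ (2 * n + 3) * (2 * H z * H z + 2 * g z * (-g z - (2 * n + 4) / z * H z))))) z := by
      refine ((((((hasDerivAt_pow (2 * n + 2) z).const_mul (2 * (n : ℝ) + 3)).mul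
        ((b1 z).pow 2)).add ((hasDerivAt_pow (2 * n + 3) z).mul
          (((b1 z).const_mul 2).mul b3'))).const_mul _)).congr_deriv ?_
      rw [e2, e3]
      push_cast
      simp only [pow_one, Pi.pow_apply, Pi.mul_apply]
      ring
    refine (hasDeriv2 (n + 1) z).unique (d2.congr_of_eventuallyEq ?_)
    filter_upwards [Ioi_mem_nhds hz] with x hx
    exact c1 x hx
  -- the relation between consecutive functions
  have r0 : (2 * (n : ℝ) + 2) * G (2 * n + 1) z = (2 * n + 3) * g z + z * H z := by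
    have e1 : HasDerivAt H0 (-G (2 * n + 1) z - (2 * n + 2) / z * H0 z) z := by
      refine (a3 z hz).congr_deriv ?_
      push_cast
      ring
    have e2 : HasDerivAt H0 (-(1 / (2 * n + 2)) * g z + -(z / (2 * n + 2)) * H z) z := by
      have e3 : H0 = fun y => -(y / (2 * n + 2)) * g y := by
        funext y
        rw [a2 y, hg]
        push_cast
        ring_nf
      rw [e3]
      exact ((((hasDerivAt_id z).div_const (2 * (n : ℝ) + 2)).neg).mul (b1 z))
    have e4 := e1.unique e2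
    have e5 := a2 z
    rw [e5] at e4
    have e6 : G (2 * n + 1 + 2) z = g z := by rw [hg]
    rw [e6] at e4
    push_cast at e4
    have e7 : (2 * (n : ℝ) + 1 + 1) = 2 * n + 2 := by ring
    rw [e7] at e4
    have hn : (2 * (n : ℝ) + 2) ≠ 0 := by positivity
    field_simp at e4
    linarith
  have r2 : z * G (2 * n + 5) z = -((2 * n + 4) * H z) := by
    have e5 := b2 z
    have e6 : G (2 * n + 3 + 2) z = G (2 * n + 5) z := rfl
    rw [e6] at e5
    push_cast at e5
    rw [e5]
    have hn : (2 * (n : ℝ) + 3 + 1) ≠ 0 := by positivity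
    field_simp
    ring
  have hrec := recK n z
  rw [c2, ← h1 z hz, ← h0 z hz, hff1 z] at hrec
  have hn2 : ((n : ℝ) + 2) ≠ 0 := by positivity
  apply mul_left_cancel₀ hn2
  rw [hrec]
  have f0 : ff n z = 2 / kap (n + 1) ^ 2 * (z ^ (2 * n + 1) * ((2 * n + 3) * g z + z * H z) ^ 2) := by
    unfold ff
    rw [← r0, hk]
    have hn : (2 * (n : ℝ) + 2) ≠ 0 := by positivity
    field_simp
  have f2 : ff (n + 2) z = 2 / kap (n + 1) ^ 2 * (z ^ (2 * n + 3) * H z ^ 2) := by
    unfold ff
    have e1 : 2 * (n + 2) + 1 = 2 * n + 5 := by ring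
    have e2 : z ^ (2 * n + 5) * G (2 * n + 5) z ^ 2 = z ^ (2 * n + 3) * (z * G (2 * n + 5) z) ^ 2 := by
      ring
    have e3 : kap (n + 2) = kap (n + 1) * (2 * n + 4) := by
      have : n + 2 = n + 1 + 1 := rfl
      rw [this, hk1]
      push_cast
      ring
    rw [e1, mul_assoc, e2, r2, e3]
    have hn : (2 * (n : ℝ) + 4) ≠ 0 := by positivity
    field_simp
  rw [f0, f2]
  field_simp
  ring

/-- **KER** -/
theorem ker : StmKER := by
  have main : ∀ n : ℕ, (∀ z, 0 < z → ff n z = KK n z) ∧ (∀ z, 0 < z → ff (n + 1) z = KK (n + 1) z) := by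
    intro n
    induction n with
    | zero =>
      constructor
      · intro z hz
        rw [K0 hz]
        unfold ff kap
        simp only [mul_zero, zero_add, pow_one, Nat.factorial_zero, Nat.cast_one, mul_one]
        rw [G_one' hz]
        field_simp
      · intro z hz
        rw [K1 hz]
        unfold ff kap
        have e : 2 * (0 + 1) + 1 = 3 := rfl
        rw [e, G_three hz]
        norm_num [Nat.factorial]
        field_simp
        ring
    | succ n ih => exact ⟨ih.2, step n ih.1 ih.2⟩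
  intro n z hz
  exact (main n).1 z hz

end Pool.Agent.T6.H61.QN3
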