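import Pool.Agent.T6.H50.QN.Defs3

/-! Project QN, third wave, module KER: the integral half. -/

set_option autoImplicit false

open MeasureTheory Real Filter Topology Set intervalIntegral

namespace Pool.Agent.T6.H61.QN3

open H50.QN

theorem PL_rec (n : ℕ) (x : ℝ) :
    ((n : ℝ) + 2) * PL (n + 2) x = (2 * (n : ℝ) + 3) * x * PL (n + 1) x - ((n : ℝ) + 1) * PL n x := by
  have h : ((n : ℝ) + 2) ≠ 0 := by positivity
  rw [PL]
  field_simp

theorem PL0 (x : ℝ) : PL 0 x = 1 := by rw [PL]

theorem PL1 (x : ℝ) : PL 1 x = x := by rw [PL]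

theorem PL_cont : ∀ n : ℕ, Continuous (PL n)
  | 0 => by
      have : PL 0 = fun _ => (1 : ℝ) := by funext x; rw [PL]
      rw [this]; exact continuous_const
  | 1 => by
      have : PL 1 = fun x => x := by funext x; rw [PL]
      rw [this]; exact continuous_id
  | (n + 2) => by
      have h1 := PL_cont (n + 1)
      have h0 := PL_cont n
      have : PL (n + 2) = fun x => ((2 * (n : ℝ) + 3) * x * PL (n + 1) x - ((n : ℝ) + 1) * PL n x) / ((n : ℝ) + 2) := by
        funext x; rw [PL]
      rw [this]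
      fun_prop

/-- the sine transform -/
noncomputable def KK (n : ℕ) (z : ℝ) : ℝ :=
  ∫ k in (0 : ℝ)..2, PL n (1 - k ^ 2 / 2) * sin (z * k)

/-- its derivative -/
noncomputable def KK1 (n : ℕ) (z : ℝ) : ℝ :=
  ∫ k in (0 : ℝ)..2, PL n (1 - k ^ 2 / 2) * (k * cos (z * k))

/-- its second derivative -/
noncomputable def KK2 (n : ℕ) (z : ℝ) : ℝ :=
  - ∫ k in (0 : ℝ)..2, k ^ 2 * PL n (1 - k ^ 2 / 2) * sin (z * k)

theorem q_cont (n : ℕ) : Continuous fun k : ℝ => PL n (1 - k ^ 2 / 2) :=
  (PL_cont n).comp (by fun_prop)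

theorem hasDeriv1 (n : ℕ) (z : ℝ) : HasDerivAt (KK n) (KK1 n z) z := by
  have hq := q_cont n
  have key := intervalIntegral.hasDerivAt_integral_of_dominated_loc_of_deriv_le
    (μ := volume) (a := (0 : ℝ)) (b := 2)
    (F := fun (z k : ℝ) => PL n (1 - k ^ 2 / 2) * sin (z * k))
    (F' := fun (z k : ℝ) => PL n (1 - k ^ 2 / 2) * (k * cos (z * k)))
    (x₀ := z) (s := Set.univ) (bound := fun k => |PL n (1 - k ^ 2 / 2)| * |k|) Filter.univ_mem
    (Filter.Eventually.of_forall fun y => (by fun_prop : Continuous fun k : ℝ =>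
      PL n (1 - k ^ 2 / 2) * sin (y * k)).aestronglyMeasurable)
    ((by fun_prop : Continuous fun k : ℝ =>
      PL n (1 - k ^ 2 / 2) * sin (z * k)).intervalIntegrable 0 2)
    (by fun_prop : Continuous fun k : ℝ =>
      PL n (1 - k ^ 2 / 2) * (k * cos (z * k))).aestronglyMeasurable
    (Filter.Eventually.of_forall fun k _ y _ => by
      rw [norm_eq_abs, abs_mul, abs_mul]
      have h1 := abs_cos_le_one (y * k)
      have h2 := abs_nonneg k
      exact mul_le_mul_of_nonneg_left (mul_le_of_le_one_right h2 h1) (abs_nonneg _))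
    ((by fun_prop : Continuous fun k : ℝ => |PL n (1 - k ^ 2 / 2)| * |k|).intervalIntegrable 0 2)
    (Filter.Eventually.of_forall fun k _ y _ => by
      have h1 : HasDerivAt (fun y : ℝ => y * k) k y := by
        simpa using (hasDerivAt_id y).mul_const k
      exact ((h1.sin).const_mul (PL n (1 - k ^ 2 / 2))).congr_deriv (by ring))
  exact key.2

theorem hasDeriv2 (n : ℕ) (z : ℝ) : HasDerivAt (KK1 n) (KK2 n z) z := by
  have hq := q_cont n
  have key := intervalIntegral.hasDerivAt_integral_of_dominated_loc_of_deriv_le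
    (μ := volume) (a := (0 : ℝ)) (b := 2)
    (F := fun (z k : ℝ) => PL n (1 - k ^ 2 / 2) * (k * cos (z * k)))
    (F' := fun (z k : ℝ) => -(k ^ 2 * PL n (1 - k ^ 2 / 2) * sin (z * k)))
    (x₀ := z) (s := Set.univ) (bound := fun k => k ^ 2 * |PL n (1 - k ^ 2 / 2)|) Filter.univ_mem
    (Filter.Eventually.of_forall fun y => (by fun_prop : Continuous fun k : ℝ =>
      PL n (1 - k ^ 2 / 2) * (k * cos (y * k))).aestronglyMeasurable)
    ((by fun_prop : Continuous fun k : ℝ =>
      PL n (1 - k ^ 2 / 2) * (k * cos (z * k))).intervalIntegrable 0 2)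
    (by fun_prop : Continuous fun k : ℝ =>
      -(k ^ 2 * PL n (1 - k ^ 2 / 2) * sin (z * k))).aestronglyMeasurable
    (Filter.Eventually.of_forall fun k _ y _ => by
      rw [norm_eq_abs, abs_neg, abs_mul, abs_mul, abs_of_nonneg (sq_nonneg k)]
      have h1 := abs_sin_le_one (y * k)
      exact mul_le_of_le_one_right (by positivity) h1)
    ((by fun_prop : Continuous fun k : ℝ => k ^ 2 * |PL n (1 - k ^ 2 / 2)|).intervalIntegrable 0 2)
    (Filter.Eventually.of_forall fun k _ y _ => by
      have h1 : HasDerivAt (fun y : ℝ => y * k) k y := by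
        simpa using (hasDerivAt_id y).mul_const k
      exact (((h1.cos).const_mul k).const_mul (PL n (1 - k ^ 2 / 2))).congr_deriv (by ring))
  have h := key.2
  rw [intervalIntegral.integral_neg] at h
  exact h

theorem recK (n : ℕ) (z : ℝ) :
    ((n : ℝ) + 2) * KK (n + 2) z =
      (2 * (n : ℝ) + 3) * (KK (n + 1) z + KK2 (n + 1) z / 2) - ((n : ℝ) + 1) * KK n z := by
  have hq := q_cont n
  have hq1 := q_cont (n + 1)
  have hq2 := q_cont (n + 2)
  unfold KK KK2
  have i0 : IntervalIntegrable (fun k : ℝ => PL n (1 - k ^ 2 / 2) * sin (z * k)) volume 0 2 :=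
    (by fun_prop : Continuous fun k : ℝ => PL n (1 - k ^ 2 / 2) * sin (z * k)).intervalIntegrable 0 2
  have i1 : IntervalIntegrable (fun k : ℝ => PL (n + 1) (1 - k ^ 2 / 2) * sin (z * k)) volume 0 2 :=
    (by fun_prop : Continuous fun k : ℝ =>
      PL (n + 1) (1 - k ^ 2 / 2) * sin (z * k)).intervalIntegrable 0 2
  have i2 : IntervalIntegrable (fun k : ℝ => k ^ 2 * PL (n + 1) (1 - k ^ 2 / 2) * sin (z * k))
      volume 0 2 :=
    (by fun_prop : Continuous fun k : ℝ =>
      k ^ 2 * PL (n + 1) (1 - k ^ 2 / 2) * sin (z * k)).intervalIntegrable 0 2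
  rw [← intervalIntegral.integral_const_mul]
  have e : (fun k : ℝ => ((n : ℝ) + 2) * (PL (n + 2) (1 - k ^ 2 / 2) * sin (z * k))) =
      fun k => ((2 * (n : ℝ) + 3) * (PL (n + 1) (1 - k ^ 2 / 2) * sin (z * k)) -
        (2 * (n : ℝ) + 3) / 2 * (k ^ 2 * PL (n + 1) (1 - k ^ 2 / 2) * sin (z * k))) -
        ((n : ℝ) + 1) * (PL n (1 - k ^ 2 / 2) * sin (z * k)) := by
    funext k
    have h := PL_rec n (1 - k ^ 2 / 2)
    linear_combination (sin (z * k)) * h
  rw [e, intervalIntegral.integral_sub ((i1.const_mul _).sub (i2.const_mul _)) (i0.const_mul _),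
    intervalIntegral.integral_sub (i1.const_mul _) (i2.const_mul _),
    intervalIntegral.integral_const_mul, intervalIntegral.integral_const_mul,
    intervalIntegral.integral_const_mul]
  ring

theorem K0 {z : ℝ} (hz : 0 < z) : KK 0 z = 2 * sin z ^ 2 / z := by
  unfold KK
  have hd : ∀ k ∈ Set.uIcc (0 : ℝ) 2, HasDerivAt (fun k : ℝ => -cos (z * k) / z)
      (PL 0 (1 - k ^ 2 / 2) * sin (z * k)) k := by
    intro k _
    have h1 : HasDerivAt (fun k : ℝ => z * k) z k := by
      simpa using (hasDerivAt_id k).const_mul z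
    refine ((h1.cos).neg.div_const z).congr_deriv ?_
    rw [PL0]
    field_simp
  rw [intervalIntegral.integral_eq_sub_of_hasDerivAt hd]
  · have e : cos (z * 2) = 1 - 2 * sin z ^ 2 := by
      rw [mul_comm, cos_two_mul, cos_sq']; ring
    simp only [e, mul_zero, cos_zero]
    field_simp
    ring
  · have hq := q_cont 0
    exact (by fun_prop : Continuous fun k : ℝ =>
      PL 0 (1 - k ^ 2 / 2) * sin (z * k)).intervalIntegrable 0 2

theorem K1 {z : ℝ} (hz : 0 < z) : KK 1 z = 2 * vv z ^ 2 / z := by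
  unfold KK
  have hd : ∀ k ∈ Set.uIcc (0 : ℝ) 2, HasDerivAt
      (fun k : ℝ => -((1 - k ^ 2 / 2) * cos (z * k)) / z - k * sin (z * k) / z ^ 2 -
        cos (z * k) / z ^ 3)
      (PL 1 (1 - k ^ 2 / 2) * sin (z * k)) k := by
    intro k _
    have h1 : HasDerivAt (fun k : ℝ => z * k) z k := by
      simpa using (hasDerivAt_id k).const_mul z
    have h0 : HasDerivAt (fun k : ℝ => 1 - k ^ 2 / 2) (-k) k :=
      (((hasDerivAt_pow 2 k).div_const 2).const_sub 1).congr_deriv (by push_cast; ring)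
    refine ((((h0.mul h1.cos).neg.div_const z).sub
      (((hasDerivAt_id k).mul h1.sin).div_const (z ^ 2))).sub
      (h1.cos.div_const (z ^ 3))).congr_deriv ?_
    rw [PL1]
    simp only [id]
    field_simp
    ring
  rw [intervalIntegral.integral_eq_sub_of_hasDerivAt hd]
  · have e : cos (z * 2) = 1 - 2 * sin z ^ 2 := by
      rw [mul_comm, cos_two_mul, cos_sq']; ring
    have e2 : sin (z * 2) = 2 * sin z * cos z := by
      rw [mul_comm, sin_two_mul]
    have e3 := sin_sq_add_cos_sq z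
    simp only [e, e2, mul_zero, cos_zero, sin_zero, vv]
    field_simp
    linear_combination (-4 * z ^ 2) * e3
  · have hq := q_cont 1
    exact (by fun_prop : Continuous fun k : ℝ =>
      PL 1 (1 - k ^ 2 / 2) * sin (z * k)).intervalIntegrable 0 2

end Pool.Agent.T6.H61.QN3
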